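import Pool.Agent.TH86.BS.Act
import Pool.Agent.TH86.BS.Fig

/-!
# Finitely invariably generated groups with a general type action on a hyperbolic space

For coprime `m, n ≥ 2` the Baumslag–Solitar group `BS(m,n) = ⟨a, t | t aᵐ t⁻¹ = aⁿ⟩` is invariably
generated by its two standard generators, and its action on its Bass–Serre tree (as a geodesic
space) is of general type.
-/

set_option autoImplicit false

namespace Pool.Agent.Results.MP_078bdc_al.FinitelyInvariablyGenerated

/-- `G` is finitely invariably generated: some finite subset `T` generates `G` after replacing each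
of its elements by an arbitrary conjugate. -/
def FinInvariablyGenerated (G : Type) [Group G] : Prop :=
  ∃ T : Set G, T.Finite ∧ ∀ f : T → G,
    Subgroup.closure (Set.range fun s : T => (f s)⁻¹ * (s : G) * f s) = ⊤

/-- Geodesic metric space. -/
def GeodesicSpace (S : Type) [MetricSpace S] : Prop :=
  ∀ x y : S, ∃ γ : ℝ → S, γ 0 = x ∧ γ (dist x y) = y ∧
    ∀ s ∈ Set.Icc (0 : ℝ) (dist x y), ∀ t ∈ Set.Icc (0 : ℝ) (dist x y), dist (γ s) (γ t) = |s - t|

/-- Gromov product of `x` and `y` with base point `w`. -/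
noncomputable def gromovProduct {S : Type} [MetricSpace S] (w x y : S) : ℝ :=
  (dist w x + dist w y - dist x y) / 2

/-- Gromov hyperbolicity (four point condition). -/
def GromovHyperbolic (S : Type) [MetricSpace S] : Prop :=
  ∃ δ : ℝ, ∀ x y z w : S,
    min (gromovProduct w x y) (gromovProduct w y z) - δ ≤ gromovProduct w x z

/-- `g` is loxodromic: `n ↦ gⁿ s` is a quasi-isometric embedding of `ℤ`. -/
def Loxodromic {S : Type} [MetricSpace S] (g : S ≃ᵢ S) : Prop :=
  ∃ (s : S) (c : ℝ) (C : ℝ), 0 < c ∧ ∀ n m : ℤ,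
    c * |(n : ℝ) - m| - C ≤ dist ((g ^ n) s) ((g ^ m) s) ∧
    dist ((g ^ n) s) ((g ^ m) s) ≤ C * |(n : ℝ) - m| + C

/-- For loxodromic `g`, `h` this says that their fixed point pairs on the Gromov boundary are
disjoint: the Gromov products of the orbits of `g` and of `h` are bounded. -/
def Independent {S : Type} [MetricSpace S] (g h : S ≃ᵢ S) : Prop :=
  ∃ (s : S) (C : ℝ), ∀ n m : ℤ, gromovProduct s ((g ^ n) s) ((h ^ m) s) ≤ C

/-- The action `φ` is of general type. -/
def GeneralType {G S : Type} [Group G] [MetricSpace S] (φ : G →* (S ≃ᵢ S)) : Prop :=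
  ∃ g h : G, Loxodromic (φ g) ∧ Loxodromic (φ h) ∧ Independent (φ g) (φ h)

/-- The relator `t aᵐ t⁻¹ a⁻ⁿ`, where `a` is the generator `0` and `t` is the generator `1`. -/
def relator (m n : ℕ) : FreeGroup (Fin 2) :=
  FreeGroup.of 1 * (FreeGroup.of 0) ^ m * (FreeGroup.of 1)⁻¹ * ((FreeGroup.of 0) ^ n)⁻¹

/-- The Baumslag–Solitar group `BS(m,n)`. -/
abbrev BS (m n : ℕ) : Type := PresentedGroup {relator m n}

open Pool.Agent.TH86.BS Pool.Agent.H472R3.Hull HNNExtension HNNExtension.NormalWord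

theorem rel (m n : ℕ) :
    (PresentedGroup.of 1 : BS m n) * (PresentedGroup.of 0) ^ m * (PresentedGroup.of 1)⁻¹ =
      (PresentedGroup.of 0) ^ n := by
  have h : PresentedGroup.mk {relator m n} (relator m n) = 1 :=
    PresentedGroup.one_of_mem rfl
  unfold relator at h
  rw [map_mul, map_mul, map_mul, map_inv, map_inv, map_pow, map_pow, mul_inv_eq_one] at h
  exact h

theorem gen (m n : ℕ) :
    Subgroup.closure ({PresentedGroup.of 0, PresentedGroup.of 1} : Set (BS m n)) = ⊤ := by
  rw [← PresentedGroup.closure_range_of {relator m n}]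
  congr 1
  ext x
  constructor
  · rintro (rfl | h)
    · exact ⟨0, rfl⟩
    · exact ⟨1, h.symm⟩
  · rintro ⟨i, rfl⟩
    fin_cases i
    · exact Or.inl rfl
    · exact Or.inr rfl

theorem fig {m n : ℕ} (hco : Nat.Coprime m n) : FinInvariablyGenerated (BS m n) := by
  refine ⟨{PresentedGroup.of 0, PresentedGroup.of 1}, Set.toFinite _, fun f => ?_⟩
  apply inv_gen hco (rel m n) (gen m n) _
    (f ⟨PresentedGroup.of 0, Or.inl rfl⟩) (f ⟨PresentedGroup.of 1, Or.inr rfl⟩)
  · exact Subgroup.subset_closure ⟨⟨PresentedGroup.of 0, Or.inl rfl⟩, rfl⟩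
  · exact Subgroup.subset_closure ⟨⟨PresentedGroup.of 1, Or.inr rfl⟩, rfl⟩

/-- The `m`-th power endomorphism of `ℤ`. -/
def pw (m : ℕ) : Multiplicative ℤ →* Multiplicative ℤ := powMonoidHom m

theorem pw_apply (m : ℕ) (x : Multiplicative ℤ) : (pw m x).toAdd = m * x.toAdd := by
  simp [pw]

theorem pw_inj {m : ℕ} (hm : 2 ≤ m) : Function.Injective (pw m) := by
  intro x y h
  have h1 := congrArg Multiplicative.toAdd h
  rw [pw_apply, pw_apply] at h1
  have hm' : (m : ℤ) ≠ 0 := by omega
  exact Multiplicative.toAdd.injective (mul_left_cancel₀ hm' h1)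

theorem one_notMem {m : ℕ} (hm : 2 ≤ m) : Multiplicative.ofAdd (1 : ℤ) ∉ (pw m).range := by
  rintro ⟨x, hx⟩
  have h1 := congrArg Multiplicative.toAdd hx
  rw [pw_apply] at h1
  have h2 : (m : ℤ) ∣ 1 := ⟨x.toAdd, h1.symm⟩
  have h3 := Int.le_of_dvd (by norm_num) h2
  omega

/-- The isomorphism `m ℤ → n ℤ`. -/
noncomputable def iso {m n : ℕ} (hm : 2 ≤ m) (hn : 2 ≤ n) : (pw m).range ≃* (pw n).range :=
  (MonoidHom.ofInjective (pw_inj hm)).symm.trans (MonoidHom.ofInjective (pw_inj hn))

theorem iso_apply {m n : ℕ} (hm : 2 ≤ m) (hn : 2 ≤ n) (x : Multiplicative ℤ) :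
    (iso hm hn ⟨pw m x, ⟨x, rfl⟩⟩ : Multiplicative ℤ) = pw n x := by
  have h : (⟨pw m x, ⟨x, rfl⟩⟩ : (pw m).range) = MonoidHom.ofInjective (pw_inj hm) x := rfl
  rw [h, iso, MulEquiv.trans_apply, MulEquiv.symm_apply_apply]
  rfl

/-- The HNN extension isomorphic to `BS(m,n)`. -/
abbrev Ext {m n : ℕ} (hm : 2 ≤ m) (hn : 2 ≤ n) : Type :=
  HNNExtension (Multiplicative ℤ) (pw m).range (pw n).range (iso hm hn)

theorem ext_rel {m n : ℕ} (hm : 2 ≤ m) (hn : 2 ≤ n) :
    (t : Ext hm hn) * (of (Multiplicative.ofAdd (1 : ℤ))) ^ m * t⁻¹ =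
      (of (Multiplicative.ofAdd (1 : ℤ))) ^ n := by
  have h := equiv_eq_conj (φ := iso hm hn) ⟨pw m (Multiplicative.ofAdd 1), ⟨_, rfl⟩⟩
  rw [iso_apply] at h
  have e : ∀ k : ℕ, pw k (Multiplicative.ofAdd (1 : ℤ)) = (Multiplicative.ofAdd (1 : ℤ)) ^ k :=
    fun k => rfl
  simp only [e, map_pow] at h
  exact h.symm

/-- The homomorphism `BS(m,n) → Ext`. -/
noncomputable def toExt {m n : ℕ} (hm : 2 ≤ m) (hn : 2 ≤ n) : BS m n →* Ext hm hn :=
  PresentedGroup.toGroup (f := ![of (Multiplicative.ofAdd (1 : ℤ)), t]) (by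
    intro r hr
    rw [Set.mem_singleton_iff] at hr
    subst hr
    unfold relator
    simp only [map_mul, map_inv, map_pow, FreeGroup.lift_apply_of, Matrix.cons_val_zero,
      Matrix.cons_val_one]
    rw [ext_rel, mul_inv_cancel])

theorem toExt_zero {m n : ℕ} (hm : 2 ≤ m) (hn : 2 ≤ n) :
    toExt hm hn (PresentedGroup.of 0) = of (Multiplicative.ofAdd (1 : ℤ)) := by
  unfold toExt
  rw [PresentedGroup.toGroup.of]
  rfl

theorem toExt_one {m n : ℕ} (hm : 2 ≤ m) (hn : 2 ≤ n) :
    toExt hm hn (PresentedGroup.of 1) = t := by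
  unfold toExt
  rw [PresentedGroup.toGroup.of]
  rfl

/-- Existence of the action. -/
theorem general_type {m n : ℕ} (hm : 2 ≤ m) (hn : 2 ≤ n) :
    ∃ (S : Type) (_ : MetricSpace S) (φ : BS m n →* (S ≃ᵢ S)),
      GeodesicSpace S ∧ GromovHyperbolic S ∧ GeneralType φ := by
  classical
  obtain ⟨d⟩ := TransversalPair.nonempty (Multiplicative ℤ) (pw m).range (pw n).range
  set ψ := iso hm hn with hψ
  let H : Hyp (Ext hm hn) := hyp ψ d
  let Φ : Ext hm hn →* (H.Pt ≃ᵢ H.Pt) := actHom H (hyp_inv ψ d)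
  refine ⟨H.Pt, inferInstance, Φ.comp (toExt hm hn), ?_, ?_, ?_⟩
  · intro x y
    exact H.geodesic x y
  · refine ⟨0, fun x y z w => ?_⟩
    unfold gromovProduct
    have h := H.four_point w y x z
    rcases le_total (dist w x + dist y z) (dist w z + dist y x) with h1 | h1
    · rw [max_eq_right h1] at h
      have h2 := min_le_left ((dist w x + dist w y - dist x y) / 2)
        ((dist w y + dist w z - dist y z) / 2)
      rw [dist_comm y x] at h
      linarith
    · rw [max_eq_left h1] at h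
      have h2 := min_le_right ((dist w x + dist w y - dist x y) / 2)
        ((dist w y + dist w z - dist y z) / 2)
      linarith
  · let a : BS m n := PresentedGroup.of 0
    let τ : BS m n := PresentedGroup.of 1
    let b : Multiplicative ℤ := Multiplicative.ofAdd (1 : ℤ)
    have hΦ : ∀ g : Ext hm hn, Φ g (H.v 1) = H.v g := by
      intro g
      have := actHom_v H (hyp_inv ψ d) g 1
      rwa [mul_one] at this
    have hg : ∀ k : ℤ, ((Φ.comp (toExt hm hn) τ) ^ k) (H.v 1) = H.v (t ^ k) := by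
      intro k
      rw [← map_zpow, MonoidHom.comp_apply, map_zpow, toExt_one, hΦ]
    have hh : ∀ k : ℤ, ((Φ.comp (toExt hm hn) (a * τ * a⁻¹)) ^ k) (H.v 1) =
        H.v (of b * t ^ k * (of b)⁻¹) := by
      intro k
      rw [← map_zpow, MonoidHom.comp_apply, map_zpow, map_mul, map_mul, map_inv, toExt_one,
        toExt_zero, hΦ, conj_zpow]
    have hd : ∀ k l : ℤ, dist (H.v (t ^ k)) (H.v (of b * t ^ l * (of b)⁻¹)) =
        |(k : ℝ)| + |(l : ℝ)| := by
      intro k l
      rw [H.dist_v]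
      show (len ψ d ((t ^ k)⁻¹ * (of b * t ^ l * (of b)⁻¹)) : ℝ) = _
      have e : ((t ^ k)⁻¹ * (of b * t ^ l * (of b)⁻¹) : Ext hm hn) =
          (t ^ (-k) * of b * t ^ l) * of b⁻¹ := by
        rw [zpow_neg, map_inv]; simp only [mul_assoc]
      rw [e, len_mul_of]
      have h := len_two ψ d b (one_notMem hm) (one_notMem hn) (-k) l
      rw [abs_neg] at h
      exact_mod_cast h
    have hpow : ∀ (x : Ext hm hn) (k l : ℤ),
        dist (H.v (x ^ k)) (H.v (x ^ l)) = dist (H.v 1) (H.v (x ^ (l - k))) := by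
      intro x k l
      rw [H.dist_v, H.dist_v]
      show (len ψ d ((x ^ k)⁻¹ * x ^ l) : ℝ) = (len ψ d (1⁻¹ * x ^ (l - k)) : ℝ)
      have e : (x ^ k)⁻¹ * x ^ l = 1⁻¹ * x ^ (l - k) := by
        rw [zpow_sub, inv_one, one_mul]
        exact ((Commute.refl x).zpow_zpow l k).inv_right.symm.eq
      rw [e]
    refine ⟨τ, a * τ * a⁻¹, ⟨H.v 1, 1, 1, one_pos, ?_⟩, ⟨H.v 1, 1, 1, one_pos, ?_⟩, H.v 1, 0, ?_⟩
    · intro k l
      have h1 := hd (l - k) 0
      rw [zpow_zero, mul_one, mul_inv_cancel, Int.cast_zero, abs_zero, add_zero, dist_comm] at h1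
      rw [hg, hg, hpow, h1, abs_sub_comm (k : ℝ)]
      push_cast
      constructor <;> linarith [abs_nonneg ((l : ℝ) - k)]
    · intro k l
      have h1 := hd 0 (l - k)
      rw [zpow_zero, Int.cast_zero, abs_zero, zero_add] at h1
      rw [hh, hh, ← conj_zpow, ← conj_zpow, hpow, conj_zpow, h1, abs_sub_comm (k : ℝ)]
      push_cast
      constructor <;> linarith [abs_nonneg ((l : ℝ) - k)]
    · intro k l
      rw [hg, hh]
      unfold gromovProduct
      have h1 := hd k 0
      have h2 := hd 0 l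
      rw [zpow_zero, mul_one, mul_inv_cancel, Int.cast_zero, abs_zero, add_zero, dist_comm] at h1
      rw [zpow_zero, Int.cast_zero, abs_zero, zero_add] at h2
      rw [h1, h2, hd]
      linarith

/-- For coprime `m, n ≥ 2` the group `BS(m,n)` is finitely invariably generated (and countable), and
it admits an isometric action of general type on a hyperbolic space. -/
theorem result : ∀ m n : ℕ, 2 ≤ m → 2 ≤ n → Nat.Coprime m n →
    Countable (BS m n) ∧ FinInvariablyGenerated (BS m n) ∧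
    ∃ (S : Type) (_ : MetricSpace S) (φ : BS m n →* (S ≃ᵢ S)),
      GeodesicSpace S ∧ GromovHyperbolic S ∧ GeneralType φ := by
  intro m n hm hn hco
  refine ⟨?_, fig hco, general_type hm hn⟩
  have h : Countable (FreeGroup (Fin 2)) := inferInstanceAs (Countable (Quot _))
  exact Function.Surjective.countable (f := PresentedGroup.mk {relator m n})
    (PresentedGroup.mk_surjective _)

end Pool.Agent.Results.MP_078bdc_al.FinitelyInvariablyGenerated
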